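import Pool.Agent.TH776.CR.Slopes

/-!
# Crystalline homological equivalence and numerical equivalence on powers of abelian varieties

Clozel proved (1999) that for an abelian variety `A` over a finite field numerical equivalence and
homological equivalence for `ℓ`-adic cohomology coincide if the complex conjugation is in a
decomposition group at `ℓ` of the Galois closure of the field generated by the Frobenius eigenvalues.
For crystalline cohomology (`ℓ = p`) this condition is satisfied for supersingular `A` only, as
the decomposition groups at `p` preserve the slopes of the eigenvalues. Here the slopes are used:
they give the result for many abelian varieties that are not supersingular.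

Let `k` be the field of coefficients `K₀` of the crystalline cohomology of varieties over the field
with `q = p ^ m` elements, the unramified extension of degree `m` of the field of `p`-adic numbers,
`θ` its Frobenius automorphism. (In the theorem `k` is any finite normal extension of `ℚ_p` whose
automorphism group is generated by one automorphism `θ`.) Let `V` be (the dual space of) the first
crystalline cohomology group of `A`, with its `θ`-semilinear Frobenius `Φ`, the linear Frobenius
`F = Φ ^ m`, which is semisimple, and the form `ω` given by a polarization, `ω (F u, F v) = q ω (u, v)`
(in the theorem `q` is replaced by any power `p ^ r`). Homogeneous classes in the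
cohomology of the powers of `A`, and of the motives they generate, are multilinear forms on `V`. As in
`MP_5f0950_ag.RelationsOverCoefficients` we consider spaces `Z ι` of such forms with properties of
the spaces of those forms that are combinations of classes of algebraic cycles (defined over
extensions of the finite field; then the form has coefficients in the extension of `K₀` as well). The
properties are: they consist of Tate classes over finite extensions for the linear Frobenius; classes
of degree zero and all Tate classes in `V ⊗ V` are algebraic (theorem of Tate and de Jong); tensor
products, permutations of the factors, pull-backs along endomorphisms commuting with a power of `F` and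
contractions with the form `ω` of algebraic classes are algebraic. Moreover the spaces `Z ι` are
stable under the semilinear operator (`IsCrystallineSystem`): `Φ` multiplies the classes of
cycles of codimension `r` by `p ^ r`.

Theorem. Suppose that for some `n > 0` (so that the base field may be replaced by an extension) one of
the following conditions holds for the characteristic polynomial `P` of `F ^ n` (for `q = p ^ r`):

(a) `OnlyTrivialRelationsDown`: the multiplicative relations up to roots of unity between `q ^ n` and
the constant terms of the irreducible factors over `ℚ_p` of `P` (which has coefficients in `ℚ_p`)
are consequences of the relations between the constant terms of the factors `f` and `f*`, where the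
roots of `f*` are the numbers `q ^ n / α`, `α` a root of `f`;

(b) `AtMostOnePair`: there is at most one pair `f ≠ f*` of different irreducible factors over
`ℚ_p`, all other factors being equal to `f*`, and for this pair the slope is not the middle slope.

Then a class `φ` in `Z ι` which is orthogonal to all classes in `Z ι` is zero.

So homological equivalence for crystalline cohomology and numerical equivalence coincide on all powers
of `A`, also with coefficients in `K₀`. Examples for (b):

(1) `A` simple, `K = ℚ(π)`, and exactly one place above `p` of the maximal real subfield `K⁺` splits
in `K`; the dimension is arbitrary. For example `A` simple and ordinary with only one place of `K⁺`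
above `p`, or all `A` for which the isocrystal over an algebraic closure has the slopes `a / g`,
`(g - a) / g`, where `g` is the dimension and `a < g` is prime to `g`.
(2) Products of powers of one such `A` with any supersingular abelian variety (take `n` such that the
eigenvalues of `F ^ n` on the supersingular part are `q ^ (n / 2)`).
(3) In the same way, with `r = 2 m`, `V` the transcendental part of the second cohomology of a K3
surface of height `h`, if its rank is `2 h` (the Tate conjecture for `V ⊗ V` is known).

Idea: by semilinear descent the set `S` of the families of eigenvalues `(α_i)` that occur in algebraic
classes over an algebraic closure of `k` is stable not only under the automorphisms over `k`, but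
under all automorphisms over `ℚ_p`: for `g` which extends `θ ^ j` use `z ↦ g ∘ z ∘ Φ ^ (-j)` on
eigenforms. The concatenation of all conjugates of a family is a family with multiplicities which
are constant on conjugacy classes over `ℚ_p`; a relation with such exponents is trivial by (a), or
by (b), as the slopes give one linear equation for the only unknown. Then cancel pairs.
-/

namespace Pool.Agent.Results.MP_0c8446_ag.CrystallineOnePair

open Module Pool.Agent.TH776.DN Pool.Agent.TH776.CR

/-- Crystalline homological equivalence and numerical equivalence coincide on the tensor powers of
the isocrystal `V` if the irreducible factors over `ℚ_p` of the characteristic polynomial of some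
power of the linear Frobenius satisfy the condition (a) or (b). -/
theorem result {p : ℕ} [Fact p.Prime] {k V : Type} [Field k] [Algebra ℚ_[p] k]
    [FiniteDimensional ℚ_[p] k] [Normal ℚ_[p] k] (θ : k ≃ₐ[ℚ_[p]] k)
    (hθ : ∀ τ : k ≃ₐ[ℚ_[p]] k, ∃ j : ℕ, τ = θ ^ j)
    [AddCommGroup V] [Module k V] [FiniteDimensional k V]
    -- the semilinear and the linear Frobenius
    (m : ℕ) (hm : 0 < m) (r : ℕ) (Φ : V → V) (F : V →ₗ[k] V) (hΦ : IsIsocrystal θ m Φ F)
    (hF : Module.End.IsSemisimple F)
    -- the form and dual bases (`r = m` for abelian varieties)
    (ω : V →ₗ[k] V →ₗ[k] k) (hω : ∀ u v, ω (F u) (F v) = (p : k) ^ r * ω u v)
    {J : Type} [Fintype J] [DecidableEq J] (e e' : Basis J k V)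
    (hdual : ∀ i j, ω (e i) (e' j) = if i = j then 1 else 0)
    -- the algebraic classes
    (Z : (ι : Type) → Submodule k (Form k V ι))
    (hZ : IsCrystallineSystem θ Φ F ((p : k) ^ r) e e' Z)
    -- the condition on the characteristic polynomial
    (n : ℕ) (hn : 0 < n)
    (hrel : OnlyTrivialRelationsDown ℚ_[p] (((p : k) ^ r) ^ n) (LinearMap.charpoly (F ^ n)) ∨
      AtMostOnePair p (((p : k) ^ r) ^ n) (LinearMap.charpoly (F ^ n)))
    -- numerically trivial classes
    {ι : Type} [Fintype ι] [DecidableEq ι] (φ : Form k V ι) (hφ : φ ∈ Z ι)
    (hnum : ∀ ψ ∈ Z ι, pairing e e' φ ψ = 0) : φ = 0 :=
  crystalline hθ hm hΦ hF hω hdual hZ hn hrel hφ hnum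

end Pool.Agent.Results.MP_0c8446_ag.CrystallineOnePair
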