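import Pool.Agent.TH85.PD.Num

/-!
# Numerical and homological equivalence for powers of divisor classes

`𝒱` is a class of smooth projective geometrically irreducible varieties over the field `k` closed
under products (for example all of them), `C` the Chow groups with rational coefficients (in the
form of their formal properties, `IsChowProj`) and `H` a Weil cohomology theory (`IsWeilProj`).

`S` is a class of varieties with the formal properties `IsRich`: in the intended use `S` consists
of all rational varieties, or of all varieties. (Each `X` is a twisted direct summand of the blow-up
of a projective space along `X`; the Chern character is an isomorphism from `K_0 ⊗ ℚ` to the Chow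
ring, so that multiples of any class `z ∈ CH^r(Y)`, `r > 0`, are up to the rank Chern characters of
vector bundles; projective bundles over rational varieties are rational.)

Theorem. Homological and numerical equivalence coincide for cycles of all codimensions on all
varieties if and only if `cl(ξ)^n = 0` for all divisor classes `ξ` on varieties `X` in `S` of
dimension `2 n` such that `ξ^n` is numerically trivial.

So the standard conjecture D (Q1 for the theory `H`) is a statement about the `n`-th powers of the
classes of line bundles on rational varieties of dimension `2 n`: if `deg (ξ^n y) = 0` for all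
cycles `y` of dimension `n`, then the cup power `cl(ξ)^n` vanishes. (For the divisor classes
themselves numerical and homological equivalence coincide, by a theorem of Matsusaka.)

Proof. Let `z ∈ CH^r(Y)`, `Y ∈ S`, `r > 0`, be numerically trivial. Choose a vector bundle `V` on `Y` of
large rank `n` with Chern character `n + q z`, `q ≠ 0`. Its Chern classes are the terms of
`exp (γ z)`, `γ ≠ 0`. On `f : P = P(V) ⟶ Y`, with `ξ = c_1(O(1))`, the relation of Grothendieck shows
that `ξ^n` is a multiple of `f^* z`, so it is numerically trivial; and
`f_* (ξ^(n+r-1)) = - γ z`. Let `Q` have dimension `n + 1 - dim Y`. Then `P × Q` has dimension `2 n`,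
so the condition gives `cl(ξ)^n = 0`, and `cl(z) = 0`.
-/

open CategoryTheory AlgebraicGeometry

set_option autoImplicit false

universe u v w

namespace Pool.Agent.Results.MP_0c8446_ag.DivisorPowers

open Pool.Agent.H914 Pool.Agent.W492.BB Pool.Agent.TH133 Pool.Agent.TH829.Prime
  Pool.Agent.TH85.PD

/-- Let `S` be a class of varieties with the formal properties `IsRich` of the class of all rational
varieties. Numerically trivial cycles of all codimensions on all varieties are homologically trivial
if and only if `cl(ξ)^n = 0` for all divisor classes `ξ` on members of `S` of dimension `2 n` such
that `ξ^n` is numerically trivial. -/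
theorem result {k : Type u} [Field k] {𝒱 : VarClass k} (C : TheoryData.{u, v, 0} 𝒱 ℚ)
    [IsChowProj C] {K : Type w} [Field K] (H : WeilTheoryData.{u, v, w} C K) [IsWeilProj H]
    (S : Set 𝒱.Obj) (hS : IsRich C S) :
    (∀ (X : 𝒱.Obj) (i : ℕ) (z : C.A X), C.Deg i z → NumTrivial C i z → H.cl z = 0) ↔
    ∀ X ∈ S, ∀ (n : ℕ) (ξ : C.A X), X.dim = 2 * n → C.Deg 1 ξ → NumTrivial C n (ξ ^ n) →
      H.cl ξ ^ n = 0 :=
  num_hom_iff hS

end Pool.Agent.Results.MP_0c8446_ag.DivisorPowers
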