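import Pool.Agent.TH117.GN.AllWeil

/-!
# Homological equivalence for every Weil cohomology is numerical equivalence: varieties generated by
abelian varieties over algebraic extensions of finite fields

Over an algebraic closure of the field with `p` elements each abelian variety is isogenous to the
reduction of an abelian variety of CM type (Honda, Tate). So an abelian variety over the field with
`p ^ a` elements is modelled by `RedAV`: a finite product of CM types `(E i, Φ i)` with Weil numbers
`π i ∈ E i` that satisfy the formula of Shimura and Taniyama; its cohomology of degree `n`, with
coefficients in an algebraically closed field `Ω`, consists of the alternating `n`-forms on
`Ω ⊗ H_1`, on which the Frobenius endomorphism acts by `π`.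

We consider (`IsAllowed`) the abelian varieties `Y` (any Newton polygons) such that

* the dimension of `Y` is at most five, and `Y` is not a product of two surfaces with non-Galois
  quartic CM fields with the same Galois closure and of a supersingular elliptic curve, with a special
  relation between the Frobenius eigenvalues (`IsExceptional`); or
* `Y` is isogenous, over an algebraic closure, to a product of a supersingular abelian variety and of
  powers of the factors of an abelian variety `Z` (any dimension) such that the multiplicative
  relations between the Frobenius eigenvalues of `Z`, the square root of the number `q` of elements
  of the ground field and roots of unity are generated by relations of the following kinds
  (`HasElementaryRelations`): those that involve at most two eigenvalues; Weil relations of imaginary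
  quadratic fields on products of factors of `Z` of dimension three, four or five, or of dimension six
  if `p` splits in the quadratic field; those between the Frobenius eigenvalues of a product of factors
  of `Z` of dimension at most five no two of which form an exceptional pair; those between the Frobenius
  eigenvalues of a product of factors of `Z` of dimension at most three, two of which are isogenous if
  their CM fields have the same Galois closure over `ℚ`, unless these CM fields are Galois over `ℚ` or
  one of the two factors is supersingular.

Let `X` be a smooth projective variety over an algebraic extension `k` of a finite field (for example
an algebraic closure) whose motive is a direct summand of a finite sum of twists of motives of such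
abelian varieties, and let `cl` be the cycle class map to **any** Weil cohomology theory (of which we
only use that intersection numbers depend only on the classes). Then a cycle on `X`, of any
codimension, is homologically trivial for this theory if and only if it is numerically trivial.

Examples are all powers of all abelian varieties of dimension at most five without exceptional pairs
of factors, products of curves (in any number) such that the product of the simple factors of their
Jacobians is as above, symmetric powers of such curves, moduli spaces of stable vector bundles on
them, blow-ups and so on.

The theorem of Clozel gives, for abelian varieties, the `ℓ`-adic theories for the `ℓ` in a set of
positive density. Here numerically trivial cycles are even rationally trivial (up to torsion), by the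
method of Soulé, Geisser and Kahn. The properties of the theory of cycles on the abelian varieties `Y`
that are used (`IsChow`) are Poincaré duality, formal properties of correspondences, the nilpotence of
homologically trivial correspondences (Kimura) and the algebraicity of the classes in `Alg` (theorems
of Tate and Markman).
-/

namespace Pool.Agent.Results.MP_0c8446_ag.EveryWeilCohomology

open Pool.Agent.TH117.GN.AW

/-- Numerical equivalence and homological equivalence coincide, for every Weil cohomology. -/
theorem result (p : ℕ) [Fact p.Prime] (ν : PadicAlgCl p ≃+* ℂ) (Ω : Type) [Field Ω]
    [IsAlgClosed Ω] [CharZero Ω] (K H : Type) [AddCommGroup K] [AddCommGroup H] (χ : K → K → ℚ)
    (hK : IsGeneratedOver p ν Ω χ) (cl : K → H) (hcl : IsClassMap χ cl) (x : K) :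
    cl x = 0 ↔ ∀ z, χ z x = 0 :=
  hom_iff_num hK hcl x

end Pool.Agent.Results.MP_0c8446_ag.EveryWeilCohomology
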