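import Pool.Agent.TH121.KT.GeoFinal

/-!
# MP_0c8446_ag: homological and numerical equivalence on products with ordinary K3 surfaces

Let `X i`, `i < r`, be smooth projective varieties over an algebraic closure of a finite field whose
cohomology is spanned by algebraic classes and by eigenvectors of Frobenius in the middle degree, with
eigenvalues `q ^ (dim X i / 2)` times (up to roots of unity) `e i`-th roots of conjugates of one CM
number `α i`, and such that the Tate conjecture holds for `X i × X i` in the middle codimension: for
example ordinary K3 surfaces, for which all this is known (Deligne, Nygaard, Nygaard and Ogus, Zarhin);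
here `α i` is of height one. Let `Z` be a product of `n i` copies of `X i`, `i < r`, and of any number
of varieties with only algebraic cohomology. Let `U` be **any** variety in the class, and let `L` be a
field of algebraic numbers which determines the slopes of the conjugates of the eigenvalues of the
Frobenius endomorphism on the cohomology of `U`. Assume that `α i` is independent of the field
generated by `L` and by slope fields of the `α j`, `j < i`, in degree `n i`: if `α i` is of height one,
this means that the intersection of this field and of the image `a (K i)` of the field of `α i` is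
totally real, or that its index in `a (K i)` is larger than `n i`.

Then for each `c ≤ dim (Z × U)` homological and numerical equivalence coincide for the cycles of
codimension `c` on `Z × U` **if and only if** they coincide for the cycles of codimension `c - i` on `U`,
for all `i ≤ c` such that `Z` has a cycle of codimension `i` whose class is not zero. In particular they
coincide on `Z × U` if they coincide on `U`, for example if `U` is any surface, and in codimension `c`
if they coincide on `U` in the codimensions at most `c`.
-/

set_option autoImplicit false

open CategoryTheory AlgebraicGeometry NumberField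

universe u v

namespace Pool.Agent.Results.MP_0c8446_ag.IndependentFactors

open Pool.Agent.H914 Pool.Agent.H914.VarClass Pool.Agent.H914.VarClass.Obj
  Pool.Agent.H914.WeilCohomology Pool.Agent.W534 Pool.Agent.TH132.A Pool.Agent.TH121.KT
  Pool.Agent.H447

/-- **Homological and numerical equivalence on the products with independent varieties.** -/
theorem result {k : Type u} [Field k] {𝒱 : VarClass k} {ops : CycleOps 𝒱}
    (W : WeilCohomology.{u, v} ops) [IsAlgClosed W.K] (p : ℕ) [Fact p.Prime] (Φ : FrobSystem W p)
    (ι : AlgebraicClosure ℚ →+* PadicAlgCl p) {r : ℕ} (X : Fin r → 𝒱.Obj) (e : Fin r → ℕ)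
    {K : Fin r → Type} [∀ i, Field (K i)] [∀ i, NumberField (K i)] [∀ i, IsCMField (K i)]
    (α : ∀ i, K i) (hX : ∀ i, HasWeilNumber Φ (X i) (e i) (α i)) (n : Fin r → ℕ) (Z U : 𝒱.Obj)
    (hZ : IsProductOfCopies W X n Z) (L : IntermediateField ℚ (AlgebraicClosure ℚ))
    (hU : FrobeniusSlopes Φ ι L U) (S : Fin r → IntermediateField ℚ (AlgebraicClosure ℚ))
    (hS : ∀ i, IsSlopeField p ι (S i) (α i))
    (hα : ∀ i, IsIndependent p ι (α i) (tower S L i) (n i)) (c : ℕ) (hc : c ≤ (Z.prod U).dim) :
    HomEqNumIn W (Z.prod U) c ↔
      ∀ i ≤ c, (∃ x, Z.IsCyc i x ∧ ¬ HomEq W x 0) → HomEqNumIn W U (c - i) := by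
  obtain ⟨h1, h2⟩ := tens_products hX hZ hS hα hU
  exact homEqNumIn_prod_iff h2 h1 hc

end Pool.Agent.Results.MP_0c8446_ag.IndependentFactors
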